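import Pool.Agent.helper88.RL.SpecL

set_option autoImplicit false

namespace Pool.Agent.RL

open Finset Pool.Agent.helper3.FT Pool.Agent.T6 Pool.Agent.RF

theorem N1_le (b : ℝ) (v : V4) : |(v.1 : ℝ)| ≤ nrm b v ∧ |(v.2.1 : ℝ)| ≤ nrm b v ∧ |(v.2.2.1 : ℝ)| ≤ nrm b v ∧
    |(v.2.2.2 : ℝ)| ≤ nrm b v := by
  unfold nrm
  exact ⟨(le_max_left _ _).trans (le_max_left _ _), (le_max_right _ _).trans (le_max_left _ _),
    (le_max_left _ _).trans (le_max_right _ _), (le_max_right _ _).trans (le_max_right _ _)⟩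

theorem N1_of (b : ℝ) (v : V4) (c : ℝ) (h1 : |(v.1 : ℝ)| ≤ c) (h2 : |(v.2.1 : ℝ)| ≤ c) (h3 : |(v.2.2.1 : ℝ)| ≤ c)
    (h4 : |(v.2.2.2 : ℝ)| ≤ c) : nrm b v ≤ c := by
  unfold nrm
  exact max_le (max_le h1 h2) (max_le h3 h4)

theorem N1_one (n : ℤ) (hn : n ≠ 0) : (1 : ℝ) ≤ |(n : ℝ)| := by
  have := Int.one_le_abs hn
  exact_mod_cast this

theorem N1 : N1_stmt := by
  intro b hb v w
  obtain ⟨v1, v2, v3, v4⟩ := N1_le b v
  obtain ⟨w1, w2, w3, w4⟩ := N1_le b w
  refine ⟨(abs_nonneg _).trans v1, ?_, ?_, ?_, ?_, ?_⟩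
  · apply N1_of
    · have : (((v + w).1 : ℤ) : ℝ) = (v.1 : ℝ) + w.1 := by
        rw [Prod.fst_add]
        push_cast
        rfl
      rw [this]
      exact (abs_add_le _ _).trans (add_le_add v1 w1)
    · have : (((v + w).2.1 : ℤ) : ℝ) = (v.2.1 : ℝ) + w.2.1 := by
        rw [Prod.snd_add, Prod.fst_add]
        push_cast
        rfl
      rw [this]
      exact (abs_add_le _ _).trans (add_le_add v2 w2)
    · have : (((v + w).2.2.1 : ℤ) : ℝ) = (v.2.2.1 : ℝ) + w.2.2.1 := by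
        rw [Prod.snd_add, Prod.snd_add, Prod.fst_add]
        push_cast
        rfl
      rw [this]
      exact (abs_add_le _ _).trans (add_le_add v3 w3)
    · have : (((v + w).2.2.2 : ℤ) : ℝ) = (v.2.2.2 : ℝ) + w.2.2.2 := by
        rw [Prod.snd_add, Prod.snd_add, Prod.snd_add]
        push_cast
        rfl
      rw [this]
      exact (abs_add_le _ _).trans (add_le_add v4 w4)
  · unfold nrm
    simp only [Prod.fst_neg, Prod.snd_neg, Int.cast_neg, abs_neg]
  · intro k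
    unfold nrm
    simp only [Prod.smul_fst, Prod.smul_snd, smul_eq_mul, Int.cast_mul, abs_mul]
    rw [← mul_max_of_nonneg _ _ (abs_nonneg _), ← mul_max_of_nonneg _ _ (abs_nonneg _), ← mul_max_of_nonneg _ _ (abs_nonneg _)]
  · intro hv
    have hb5 : 1 / b ^ 5 ≤ 1 := by
      rw [div_le_one (by positivity)]
      exact one_le_pow₀ hb
    refine hb5.trans ?_
    by_cases h1 : v.1 = 0
    · by_cases h2 : v.2.1 = 0
      · by_cases h3 : v.2.2.1 = 0
        · by_cases h4 : v.2.2.2 = 0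
          · exact absurd (Prod.ext h1 (Prod.ext h2 (Prod.ext h3 h4))) hv
          · exact (N1_one _ h4).trans v4
        · exact (N1_one _ h3).trans v3
      · exact (N1_one _ h2).trans v2
    · exact (N1_one _ h1).trans v1
  · unfold nrm
    simp

end Pool.Agent.RL
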